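import Pool.Agent.H63.WT.TB
import Pool.Agent.H36.WT.Lib
import Pool.Agent.H28.N6D.LocalLemma
import Pool.Agent.H23.QCF.LocalAll
import Pool.Agent.H78.QH.DGN

/-!
# Row FWD: from an anisotropic to a hyperbolic member of the pencil
-/

set_option autoImplicit false

open Polynomial Matrix Pool.Agent.H63.WT

namespace Pool.Agent.H63.WTR

section alg

variable {F : Type} [Field F]

theorem lam_mul_left {A B : F[X]} (hA : A.Monic) (hB : B.Monic) (g : F[X]) :
    Pool.Agent.H34.N6.lam (A * B) (A * g) = Pool.Agent.H34.N6.lam B g := by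
  unfold Pool.Agent.H34.N6.lam
  have h1 : (A * g) %ₘ (A * B) = A * (g %ₘ B) := by
    have h2 := (div_modByMonic_unique (g /ₘ B) (A * (g %ₘ B)) (hA.mul hB)
      (f := A * g) ⟨by
        have h3 := modByMonic_add_div g B
        calc A * (g %ₘ B) + A * B * (g /ₘ B) = A * (g %ₘ B + B * (g /ₘ B)) := by ring
          _ = A * g := by rw [h3], by
        rw [degree_mul, degree_mul]
        have h3 := degree_modByMonic_lt g hB
        have h4 : A.degree ≠ ⊥ := by
          rw [Ne, degree_eq_bot]; exact hA.ne_zero
        rw [degree_eq_natDegree hA.ne_zero]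
        rcases eq_or_ne (g %ₘ B) 0 with h5 | h5
        · rw [h5, degree_zero, WithBot.add_bot]
          rw [degree_eq_natDegree hB.ne_zero]
          exact WithBot.bot_lt_coe _
        · rw [degree_eq_natDegree h5, degree_eq_natDegree hB.ne_zero] at h3 ⊢
          exact_mod_cast Nat.add_lt_add_left (by exact_mod_cast h3) _⟩).2
    exact h2
  rw [h1, hA.natDegree_mul hB]
  rcases Nat.eq_zero_or_pos B.natDegree with h0 | h0
  · have h2 : B = 1 := eq_one_of_monic_natDegree_zero hB h0
    subst h2
    simp
  · have h2 : A.natDegree + B.natDegree - 1 = A.natDegree + (B.natDegree - 1) := by omega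
    rw [h2, coeff_mul_add_eq_of_natDegree_le le_rfl]
    · rw [coeff_natDegree, hA.leadingCoeff, one_mul]
    · have h3 := natDegree_modByMonic_lt g hB (by
        rintro rfl
        simp at h0)
      omega

theorem gm_lin (A h : F[X]) (t : F) :
    gm A (h * (X - C t)) = gm A (h * X) - t • gm A h := by
  ext i j
  rw [Matrix.sub_apply, Matrix.smul_apply, smul_eq_mul]
  unfold gm
  rw [← Pool.Agent.H36.WT.lamC]
  rw [← Pool.Agent.H36.WT.lamL_apply, ← Pool.Agent.H36.WT.lamL_apply,
    ← Pool.Agent.H36.WT.lamL_apply, ← map_sub]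
  congr 1
  ring

theorem TIs_smul {ι : Type} [Fintype ι] {A : Matrix ι ι F} {r : ℕ} (c : F) (h : TIs A r) :
    TIs (c • A) r := by
  obtain ⟨b, hb, h0⟩ := h
  refine ⟨b, hb, fun i j => ?_⟩
  rw [smul_mulVec, dotProduct_smul, h0, smul_zero]

theorem TIs_sub {ι κ : Type} [Fintype ι] [Fintype κ] {A : Matrix ι ι F} {r : ℕ} (e : κ ≃ ι)
    (h : TIs (A.submatrix e e) r) : TIs A r := by
  obtain ⟨b, hb, h0⟩ := h
  refine ⟨fun i => b i ∘ e.symm, ?_, fun i j => ?_⟩
  · have h1 := hb.map' (LinearEquiv.funCongrLeft F F e.symm).toLinearMap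
      (LinearEquiv.ker _)
    exact h1
  · rw [← h0 i j]
    simp only [dotProduct, mulVec, submatrix_apply, Function.comp]
    rw [← e.sum_comp]
    refine Finset.sum_congr rfl fun x _ => ?_
    rw [← e.sum_comp]
    simp

end alg

section loc

variable {F : Type} [NontriviallyNormedField F] [IsUltrametricDist F] [ProperSpace F] [CharZero F]

theorem det_sq (G : Matrix (Fin 4) (Fin 4) F) (hs : G.IsSymm) (hd : G.det ≠ 0)
    (ha : Anis G) : IsSquare G.det := by
  obtain ⟨a, Q, h1, h2, h3⟩ := Pool.Agent.H78.QH.pf_DGN F two_ne_zero 4 G hs hd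
  by_contra hcon
  have h4 : G.det * Q.det ^ 2 = ∏ i, a i := by
    rw [← det_diagonal, ← h3, det_mul, det_mul, det_transpose]
    ring
  have h5 : ¬ IsSquare (∏ i, a i) := by
    rintro ⟨s, hs'⟩
    apply hcon
    refine ⟨s / Q.det, ?_⟩
    have h6 := h2.ne_zero
    field_simp
    rw [h4, hs', sq]
  obtain ⟨x, hx, hx0⟩ := Pool.Agent.H23.QCF.LA.qua F two_ne_zero
    (Pool.Agent.H23.QCF.LA.nix F) a h1 h5
  refine ha (Q *ᵥ x) ?_ ?_
  · intro h6
    apply hx
    have h7 := congrArg (fun v => Q⁻¹ *ᵥ v) h6
    simp only [mulVec_mulVec, mulVec_zero] at h7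
    rwa [nonsing_inv_mul _ h2, one_mulVec] at h7
  · have h8 : (Q *ᵥ x) ⬝ᵥ (G *ᵥ (Q *ᵥ x)) = x ⬝ᵥ ((Qᵀ * G * Q) *ᵥ x) := by
      rw [← mulVec_mulVec, ← mulVec_mulVec, dotProduct_mulVec x Qᵀ, vecMul_transpose]
    rw [h8, h3, ← hx0]
    simp only [dotProduct, mulVec_diagonal]
    refine Finset.sum_congr rfl fun i _ => ?_
    ring

omit [IsUltrametricDist F] [ProperSpace F] [CharZero F] in
theorem avoid (Z : Finset F) (t : F) : ∃ δ : ℝ, 0 < δ ∧ ∀ t' : F, t' ≠ t → ‖t' - t‖ < δ →
    t' ∉ Z := by
  classical
  have h1 : IsOpen ((Z.erase t : Finset F) : Set F)ᶜ :=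
    (Z.erase t).finite_toSet.isClosed.isOpen_compl
  obtain ⟨δ, hδ, h2⟩ := Metric.isOpen_iff.1 h1 t (by simp)
  refine ⟨δ, hδ, fun t' h3 h4 h5 => ?_⟩
  have h6 : t' ∈ Metric.ball t δ := by
    rw [Metric.mem_ball, dist_eq_norm]
    exact h4
  exact h2 h6 (by simp [h3, h5])

omit [IsUltrametricDist F] [ProperSpace F] [CharZero F] in
theorem bnd (h : F[X]) : ∃ K : ℝ, 0 < K ∧ ∀ i, ‖h.coeff i‖ ≤ K := by
  refine ⟨1 + ∑ i ∈ h.support, ‖h.coeff i‖, by positivity, fun i => ?_⟩
  by_cases hi : i ∈ h.support
  · have h1 := Finset.single_le_sum (f := fun i => ‖h.coeff i‖) (fun _ _ => norm_nonneg _) hi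
    linarith
  · rw [notMem_support_iff.1 hi, norm_zero]
    positivity

theorem pf_FWD (hLOC : T_LOC) (hFIN : T_FIN) (hGDT : T_GDT) (hNNR : T_NNR) (hMDS : T_MDS)
    (hSCR : T_SCR) (hSSQ : T_SSQ) (hCLS : T_CLS) (hONE : T_ONE) (hW0 : T_W0) (hAN4 : T_AN4)
    (hGMV : T_GMV) : T_FWD := by
  intro F _ _ _ _ M0 h t0 hM hsep h4 hcop ht0 hani Z
  classical
  have two : (2 : F) ≠ 0 := two_ne_zero
  obtain ⟨hdet1, hsym, hne, hmul, hC, heq, hlin⟩ := hGDT F M0 hM
  have hdet1' : (gm M0 1).det = 1 := by
    rw [hdet1, h4]
    norm_num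
  have hdet : ∀ g, (gm M0 g).det = nn M0 g := by
    intro g
    rw [nn, hdet1', mul_one]
  have hnl : ∀ t : F, nn M0 (X - C t) = eval t M0 := by
    intro t
    rw [(hNNR F M0 (X - C t) hM (monic_X_sub_C t)).2, h4, natDegree_X_sub_C]
    obtain ⟨-, -, -, -, -, -, h7⟩ := hGDT F (X - C t) (monic_X_sub_C t)
    rw [h7 t rfl]
    norm_num
  have hcl : ∀ t : F, eval t M0 ≠ 0 → IsCoprime M0 (X - C t) := by
    intro t ht
    refine (hne _).1 ?_
    rw [hdet, hnl]
    exact ht
  have hch : ∀ t : F, eval t M0 ≠ 0 → IsCoprime M0 (h * (X - C t)) := fun t ht =>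
    hcop.mul_right (hcl t ht)
  have hn0 : nn M0 h ≠ 0 := by
    rw [← hdet]
    exact (hne h).2 hcop
  have hn4 : Fintype.card (Fin M0.natDegree) = 2 * 2 := by rw [Fintype.card_fin, h4]
  set e : Fin 4 ≃ Fin M0.natDegree := finCongr h4.symm with he
  -- the start has square determinant
  have hst : IsSquare (nn M0 h * eval t0 M0) := by
    have h1 := det_sq ((gm M0 (h * (X - C t0))).submatrix e e)
      (by
        rw [IsSymm, transpose_submatrix]
        rw [(hsym _).eq]) (by
        rw [det_submatrix_equiv_self]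
        exact (hne _).2 (hch t0 ht0)) (by
        intro z hz hz0
        refine hani (z ∘ e.symm) ?_ ?_
        · intro h2
          apply hz
          funext i
          have h3 := congrFun h2 (e i)
          simpa using h3
        · rw [← hz0]
          simp only [dotProduct, mulVec, submatrix_apply, Function.comp]
          rw [← e.sum_comp]
          refine Finset.sum_congr rfl fun x _ => ?_
          rw [← e.sum_comp]
          simp)
    rw [det_submatrix_equiv_self, hdet, hmul, hnl] at h1
    exact h1
  -- the square condition is automatic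
  have hfin : ∀ t : F, eval t M0 ≠ 0 → Met (gm M0 (h * (X - C t))) →
      IsSquare (eval t M0 * eval t0 M0) := by
    intro t ht hm
    have h1 := hMDS F two (Fin M0.natDegree) (gm M0 (h * (X - C t))) 2
      ⟨hsym _, (hne _).2 (hch t ht)⟩ hm hn4
    rw [hdet, hmul, hnl] at h1
    obtain ⟨a, ha⟩ := h1
    obtain ⟨b, hb⟩ := hst
    refine ⟨a * b / nn M0 h, ?_⟩
    field_simp
    have h2 : nn M0 h * eval t M0 = a * a := by rw [← ha]; ring
    linear_combination (nn M0 h * eval t0 M0) * h2 + a * a * hb
  -- enough: a good member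
  suffices hsuf : ∃ t : F, t ∉ Z ∧ eval t M0 ≠ 0 ∧ Met (gm M0 (h * (X - C t))) by
    obtain ⟨t, h1, h2, h3⟩ := hsuf
    exact ⟨t, h1, h2, h3, hfin t h2 h3⟩
  set Z' : Finset F := Z ∪ M0.roots.toFinset with hZ'
  have hZ : ∀ t, t ∉ Z' → t ∉ Z ∧ eval t M0 ≠ 0 := by
    intro t ht
    rw [hZ', Finset.mem_union, not_or] at ht
    refine ⟨ht.1, fun h1 => ht.2 ?_⟩
    rw [Multiset.mem_toFinset, mem_roots hM.ne_zero]
    exact h1
  suffices hsuf : ∃ t : F, t ∉ Z' ∧ Met (gm M0 (h * (X - C t))) by
    obtain ⟨t, h1, h3⟩ := hsuf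
    exact ⟨t, (hZ t h1).1, (hZ t h1).2, h3⟩
  -- the quaternary lemma
  have hsA : ∀ g, ((gm M0 g).submatrix e e)ᵀ = (gm M0 g).submatrix e e := by
    intro g
    rw [transpose_submatrix, (hsym _).eq]
  obtain ⟨a, b, hab, hW⟩ := Pool.Agent.H28.N6D.r_QUA' F two
    ((gm M0 (h * X)).submatrix e e) ((gm M0 h).submatrix e e) (hsA _) (hsA _)
    ⟨1, -t0, by
      intro z hz hz0
      refine hani (z ∘ e.symm) ?_ ?_
      · intro h2
        apply hz
        funext i
        have h3 := congrFun h2 (e i)
        simpa using h3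
      · have h5 : (1 : F) • (gm M0 (h * X)).submatrix e e + -t0 • (gm M0 h).submatrix e e =
            (gm M0 (h * (X - C t0))).submatrix e e := by
          rw [gm_lin]
          ext i j
          simp [sub_eq_add_neg]
        rw [h5] at hz0
        unfold Pool.Agent.H28.N6.qf at hz0
        rw [← hz0]
        simp only [dotProduct, mulVec, submatrix_apply, Function.comp]
        rw [← e.sum_comp]
        refine Finset.sum_congr rfl fun x _ => ?_
        rw [← e.sum_comp]
        simp⟩
  have hsym4 : (a • (gm M0 (h * X)).submatrix e e + b • (gm M0 h).submatrix e e)ᵀ =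
      a • (gm M0 (h * X)).submatrix e e + b • (gm M0 h).submatrix e e := by
    rw [transpose_add, transpose_smul, transpose_smul, hsA, hsA]
  have hTI := (Pool.Agent.H69.N6D.pf_CNV F two 4 2 _ hsym4).1 hW
  have hTI' : TIs (a • gm M0 (h * X) + b • gm M0 h) 2 := by
    refine TIs_sub e ?_
    exact hTI
  by_cases ha : a = 0
  · -- the member at infinity
    subst ha
    have hb : b ≠ 0 := by
      rcases hab with h1 | h1
      · exact absurd rfl h1
      · exact h1
    have h1 : TIs (gm M0 h) 2 := by
      have h2 := TIs_smul b⁻¹ hTI'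
      rw [zero_smul, zero_add, smul_smul, inv_mul_cancel₀ hb, one_smul] at h2
      exact h2
    obtain ⟨B, hB⟩ := hFIN F M0 h hM hcop
    obtain ⟨K, hK, hK'⟩ : ∃ K : ℝ, 0 < K ∧ ∀ z ∈ Z', ‖z‖ ≤ K := by
      refine ⟨1 + ∑ z ∈ Z', ‖z‖, by positivity, fun z hz => ?_⟩
      have h2 := Finset.single_le_sum (f := fun z : F => ‖z‖) (fun _ _ => norm_nonneg _) hz
      linarith
    obtain ⟨t, ht⟩ := NormedField.exists_lt_norm F (max B K)
    refine ⟨t, fun h2 => ?_, ((hB t (lt_of_le_of_lt (le_max_left _ _) ht)).2.1 ⟨2, hn4, h1⟩)⟩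
    exact absurd (hK' t h2) (not_le.2 (lt_of_le_of_lt (le_max_right _ _) ht))
  · set t : F := -b / a with htdef
    have hT : TIs (gm M0 (h * (X - C t))) 2 := by
      have h2 := TIs_smul a⁻¹ hTI'
      rw [smul_add, smul_smul, smul_smul, inv_mul_cancel₀ ha, one_smul] at h2
      rw [gm_lin, sub_eq_add_neg, ← neg_smul]
      have h3 : -t = a⁻¹ * b := by
        rw [htdef]
        field_simp
      rw [h3]
      exact h2
    obtain ⟨δ, hδ, hav⟩ := avoid Z' t
    obtain ⟨K, hK, hK'⟩ := bnd h
    by_cases h0 : eval t M0 = 0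
    · -- the degenerate member
      obtain ⟨k, hk⟩ := dvd_iff_isRoot.2 h0
      have hkm : k.Monic := (monic_X_sub_C t).of_mul_monic_left (hk ▸ hM)
      have hcopk : IsCoprime (X - C t) k := by
        have h1 : ((X - C t) * k).Separable := hk ▸ hsep
        exact h1.isCoprime
      have hkt : eval t k ≠ 0 := by
        intro h1
        have h2 : (X - C t) ∣ k := dvd_iff_isRoot.2 h1
        have h3 := hcopk.isUnit_of_dvd' dvd_rfl h2
        exact not_isUnit_X_sub_C t h3
      have hht : eval t h ≠ 0 := by
        intro h1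
        have h2 : (X - C t) ∣ h := dvd_iff_isRoot.2 h1
        have h3 : (X - C t) ∣ M0 := ⟨k, hk⟩
        exact not_isUnit_X_sub_C t (hcop.isUnit_of_dvd' h3 h2)
      have hcopkh : IsCoprime k h := by
        have : k ∣ M0 := ⟨X - C t, by rw [hk]; ring⟩
        exact hcop.of_isCoprime_of_dvd_left this
      have hkd : k.natDegree = 3 := by
        have h1 := congrArg natDegree hk
        rw [(monic_X_sub_C t).natDegree_mul hkm, natDegree_X_sub_C, h4] at h1
        omega
      obtain ⟨-, hsymk, hnek, -, -, heqk, -⟩ := hGDT F k hkm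
      -- the ternary form is isotropic
      have hiso : ∃ z : Fin k.natDegree → F, z ≠ 0 ∧ z ⬝ᵥ (gm k h *ᵥ z) = 0 := by
        obtain ⟨w, hwi, hw0⟩ := hT
        have hval := (hGMV F M0 (h * (X - C t)) hM).1
        -- polynomials
        set p : (Fin M0.natDegree → F) → F[X] := fun z => ∑ i, C (z i) * X ^ (i : ℕ) with hp
        have hpd : ∀ z, (p z).natDegree < 4 := by
          intro z
          have h1 := Pool.Agent.H36.WT.degSum z
          rcases eq_or_ne (p z) 0 with h2 | h2
          · rw [h2, natDegree_zero]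
            norm_num
          · have h3 := (natDegree_lt_iff_degree_lt h2).2 h1
            omega
        have hex : ∃ z : Fin M0.natDegree → F, z ⬝ᵥ (gm M0 (h * (X - C t)) *ᵥ z) = 0 ∧
            ¬ k ∣ p z := by
          by_contra hcon
          push Not at hcon
          have hq : ∀ c : Fin 2 → F, k ∣ p (∑ i, c i • w i) := by
            intro c
            apply hcon
            rw [mulVec_sum, sum_dotProduct]
            refine Finset.sum_eq_zero fun i _ => ?_
            rw [dotProduct_sum]
            refine Finset.sum_eq_zero fun j _ => ?_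
            rw [mulVec_smul, smul_dotProduct, dotProduct_smul, hw0, smul_zero, smul_zero]
          -- all are scalar multiples of k
          have hmult : ∀ z, k ∣ p z → ∃ c : F, p z = C c * k := by
            rintro z ⟨q, hq'⟩
            rcases eq_or_ne (p z) 0 with h2 | h2
            · exact ⟨0, by rw [h2]; simp⟩
            · have h3 : q ≠ 0 := by
                rintro rfl
                apply h2
                rw [hq', mul_zero]
              have h5 := congrArg natDegree hq'
              rw [natDegree_mul hkm.ne_zero h3, hkd] at h5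
              have h6 := hpd z
              have h7 : q.natDegree = 0 := by omega
              obtain ⟨c, hc⟩ := natDegree_eq_zero.1 h7
              exact ⟨c, by rw [hq', ← hc]; ring⟩
          have hpinj : ∀ z, p z = 0 → z = 0 := by
            intro z hz
            funext i
            rw [← Pool.Agent.H36.WT.coeffSum z i]
            change (p z).coeff i = 0
            rw [hz, coeff_zero]
          have hpadd : ∀ (c d : F) (z z' : Fin M0.natDegree → F),
              p (c • z + d • z') = C c * p z + C d * p z' := by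
            intro c d z z'
            simp only [hp, Pi.add_apply, Pi.smul_apply, smul_eq_mul, C_add, C_mul, add_mul,
              Finset.sum_add_distrib, Finset.mul_sum, mul_assoc]
          obtain ⟨c0, hc0⟩ := hmult (w 0) (by
            have h1 := hq ![1, 0]
            simpa [Fin.sum_univ_two] using h1)
          obtain ⟨c1, hc1⟩ := hmult (w 1) (by
            have h1 := hq ![0, 1]
            simpa [Fin.sum_univ_two] using h1)
          have h1 : c1 • w 0 + (-c0) • w 1 = 0 := by
            apply hpinj
            rw [hpadd, hc0, hc1, C_neg]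
            ring
          have h2 := (LinearIndependent.pair_iff.1 (by
            have h3 : ![w 0, w 1] = w := by
              funext i
              fin_cases i <;> rfl
            rw [h3]
            exact hwi : LinearIndependent F ![w 0, w 1])) c1 (-c0) h1
          have h3 : w 0 = 0 := by
            apply hpinj
            rw [hc0, neg_eq_zero.1 h2.2]
            simp
          exact hwi.ne_zero 0 h3
        obtain ⟨z, hz0, hzk⟩ := hex
        refine ⟨fun i => (p z %ₘ k).coeff i, ?_, ?_⟩
        · intro h1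
          apply hzk
          rw [← modByMonic_eq_zero_iff_dvd hkm, Pool.Agent.H36.WT.reprM hkm]
          refine Finset.sum_eq_zero fun i _ => ?_
          have h2 := congrFun h1 i
          simp only [Pi.zero_apply] at h2
          rw [h2]
          simp
        · rw [(hGMV F k h hkm).1, ← Pool.Agent.H36.WT.reprM hkm]
          rw [hval] at hz0
          have h1 : h * (X - C t) * (∑ i : Fin M0.natDegree, C (z i) * X ^ (i : ℕ)) *
              (∑ i : Fin M0.natDegree, C (z i) * X ^ (i : ℕ)) =
              (X - C t) * (h * p z * p z) := by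
            simp only [hp]
            ring
          rw [h1] at hz0
          have h2 : Pool.Agent.H34.N6.lam M0 ((X - C t) * (h * p z * p z)) =
              Pool.Agent.H34.N6.lam k (h * p z * p z) := by
            conv_lhs => rw [hk]
            exact lam_mul_left (monic_X_sub_C t) hkm _
          rw [h2] at hz0
          rw [← hz0]
          refine Pool.Agent.H36.WT.lamEq hkm ?_
          obtain ⟨q, hq⟩ := Pool.Agent.H36.WT.dvdSub hkm (p z)
          refine ⟨-(h * q) * (p z + p z %ₘ k), ?_⟩
          linear_combination -(h * (p z + p z %ₘ k)) * hq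
      -- its class is the class of a form in one variable
      obtain ⟨hc1, hc2, hc3, hc4, -⟩ := hCLS F two
      obtain ⟨ho1, ho2, -, -⟩ := hONE F two
      have hSNk : SN (gm k h) := ⟨hsymk h, (hnek h).2 hcopkh⟩
      set d : F := (gm k h).det with hd
      have hd0 : d ≠ 0 := hSNk.2
      have hSk : S k h = on (-d) := by
        set D1 : Matrix (Fin 1) (Fin 1) F := fun _ _ => d with hD1
        have hSN1 : SN D1 := ⟨by ext i j; rfl, by simpa [hD1] using hd0⟩
        have hSN2 : SN (fromBlocks (gm k h) 0 0 D1) := by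
          refine ⟨?_, ?_⟩
          · rw [IsSymm, fromBlocks_transpose, hSNk.1.eq, hSN1.1.eq]
            simp
          · rw [det_fromBlocks_zero₂₁]
            exact mul_ne_zero hSNk.2 hSN1.2
        have hm : Met (fromBlocks (gm k h) 0 0 D1) := by
          refine (hAN4 F two _ _ ?_ hSN2 ?_).2 ?_
          · rw [Fintype.card_sum, Fintype.card_fin, Fintype.card_fin, hkd]
          · rw [det_fromBlocks_zero₂₁]
            refine ⟨d, ?_⟩
            simp [hD1, hd]
          · intro h1
            obtain ⟨z, hz, hz0⟩ := hiso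
            refine h1 (Sum.elim z 0) ?_ ?_
            · intro h2
              apply hz
              funext i
              exact congrFun h2 (Sum.inl i)
            · rw [fromBlocks_mulVec]
              simp only [Sum.elim_comp_inl, Sum.elim_comp_inr, mulVec_zero, zero_mulVec,
                add_zero]
              rw [sumElim_dotProduct_sumElim, hz0, zero_dotProduct, add_zero]
        have h1 := hc1 _ _ hSN2 hm
        rw [hc2 _ _ _ _ hSNk hSN1] at h1
        change S k h + on d = 0 at h1
        rw [ho2 d hd0]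
        exact eq_neg_of_add_eq_zero_left h1
      -- nearby members
      set c : F := eval t h * eval t k with hcdef
      have hc0 : c ≠ 0 := mul_ne_zero hht hkt
      obtain ⟨ε, hε, hloc⟩ := hLOC F k (h * (X - C t) * (X - C t)) (h.natDegree + 2) hkm (by
        have h1 : IsCoprime k (X - C t) := hcopk.symm
        exact (hcopkh.mul_right h1).mul_right h1)
      obtain ⟨K2, hK2, hK2'⟩ := bnd (h * (X - C t))
      obtain ⟨u, hu, hu2⟩ := NormedField.exists_norm_lt F
        (show (0 : ℝ) < min 1 (min δ (ε / K2) / (1 + ‖d / c‖)) by positivity)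
      set t' : F := t - d / c * u ^ 2 with ht'
      have hu0 : u ≠ 0 := norm_pos_iff.1 hu
      have htt : t' ≠ t := by
        rw [ht']
        intro h1
        have h2 : d / c * u ^ 2 = 0 := by linear_combination -h1
        exact (mul_ne_zero (div_ne_zero hd0 hc0) (pow_ne_zero 2 hu0)) h2
      have hnt : ‖t' - t‖ < min δ (ε / K2) := by
        have h0' : t' - t = -(d / c * u ^ 2) := by
          rw [ht']
          ring
        rw [h0', norm_neg, norm_mul, norm_pow]
        have h1 : ‖u‖ < 1 := lt_of_lt_of_le hu2 (min_le_left _ _)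
        have h2 : ‖u‖ < min δ (ε / K2) / (1 + ‖d / c‖) := lt_of_lt_of_le hu2 (min_le_right _ _)
        rw [lt_div_iff₀ (by positivity)] at h2
        have h3 : ‖u‖ ^ 2 ≤ ‖u‖ := by
          rw [sq]
          exact mul_le_of_le_one_left hu.le h1.le
        calc ‖d / c‖ * ‖u‖ ^ 2 ≤ ‖d / c‖ * ‖u‖ :=
              mul_le_mul_of_nonneg_left h3 (norm_nonneg _)
          _ ≤ ‖u‖ * (1 + ‖d / c‖) := by nlinarith [norm_nonneg (d / c)]
          _ < _ := h2
      have hnZ : t' ∉ Z' := hav t' htt (lt_of_lt_of_le hnt (min_le_left _ _))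
      refine ⟨t', hnZ, ?_⟩
      have hM' : eval t' M0 ≠ 0 := (hZ t' hnZ).2
      have hcopt' : IsCoprime M0 (h * (X - C t')) := hch t' hM'
      refine hW0 F two _ _ ⟨hsym _, (hne _).2 hcopt'⟩ ?_
      have hsum : S M0 (h * (X - C t')) =
          S (X - C t) (h * (X - C t') * k) + S k (h * (X - C t') * (X - C t)) := by
        conv_lhs => rw [hk]
        exact hSCR F two (X - C t) k (h * (X - C t')) (monic_X_sub_C t) hkm hcopk
          (hk ▸ hcopt')
      change S M0 (h * (X - C t')) = 0
      rw [hsum]
      have h1 : S (X - C t) (h * (X - C t') * k) = on d := by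
        have h2 : eval t (h * (X - C t') * k) = d * u ^ 2 := by
          rw [eval_mul, eval_mul, eval_sub, eval_X, eval_C, ht']
          have h3 : eval t h * (t - (t - d / c * u ^ 2)) * eval t k = c * (d / c * u ^ 2) := by
            rw [hcdef]
            ring
          rw [h3]
          field_simp
        rw [(hSSQ F two (X - C t) (monic_X_sub_C t)).2.1 t rfl _ (by
          rw [h2]
          exact mul_ne_zero hd0 (pow_ne_zero 2 hu0)), h2, ho1 _ _ hd0 hu0]
      have h2 : S k (h * (X - C t') * (X - C t)) = -on d := by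
        have h3 := (hloc (h * (X - C t') * (X - C t)) (by
          refine natDegree_mul_le.trans ?_
          rw [natDegree_X_sub_C]
          have := natDegree_mul_le (p := h) (q := X - C t')
          rw [natDegree_X_sub_C] at this
          omega) (by
          intro i
          have h4 : h * (X - C t') * (X - C t) - h * (X - C t) * (X - C t) =
              C (t - t') * (h * (X - C t)) := by
            have h6 : (C (t - t') : F[X]) = C t - C t' := C_sub
            rw [h6]
            ring
          rw [h4, coeff_C_mul, norm_mul, ← norm_neg (t - t'), neg_sub]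
          have h5 : ‖t' - t‖ < ε / K2 := lt_of_lt_of_le hnt (min_le_right _ _)
          rw [lt_div_iff₀ hK2] at h5
          exact lt_of_le_of_lt (mul_le_mul_of_nonneg_left (hK2' i) (norm_nonneg _)) h5)).2.1
        have hck : IsCoprime k (X - C t) := hcopk.symm
        rw [h3, (hSSQ F two k hkm).1 (h * (X - C t) * (X - C t)) h (X - C t)
          ((hcopkh.mul_right hck).mul_right hck) hcopkh ⟨0, by ring⟩, hSk, ho2 d hd0]
      rw [h1, h2, add_neg_cancel]
    · -- a nondegenerate member
      obtain ⟨ε, hε, hloc⟩ := hLOC F M0 (h * (X - C t)) (h.natDegree + 1) hM (hch t h0)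
      obtain ⟨u, hu, hu2⟩ := NormedField.exists_norm_lt F
        (show (0 : ℝ) < min δ (ε / K) by positivity)
      refine ⟨t + u, hav (t + u) ?_ ?_, ?_⟩
      · intro h1
        have h2 : u = 0 := by linear_combination h1
        rw [h2, norm_zero] at hu
        exact lt_irrefl _ hu
      · rw [add_sub_cancel_left]
        exact lt_of_lt_of_le hu2 (min_le_left _ _)
      · refine (hloc (h * (X - C (t + u))) ?_ ?_).2.2.1 ⟨2, hn4, hT⟩
        · refine natDegree_mul_le.trans ?_
          rw [natDegree_X_sub_C]
        · intro i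
          have h1 : h * (X - C (t + u)) - h * (X - C t) = C (-u) * h := by
            rw [C_neg, C_add]
            ring
          rw [h1, coeff_C_mul, norm_mul, norm_neg]
          have h2 : ‖u‖ < ε / K := lt_of_lt_of_le hu2 (min_le_right _ _)
          rw [lt_div_iff₀ hK] at h2
          exact lt_of_le_of_lt (mul_le_mul_of_nonneg_left (hK' i) (norm_nonneg _)) h2

end loc

end Pool.Agent.H63.WTR
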