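import Pool.Agent.H63.WT.TA
import Pool.Agent.H15.WT.QDZ
import Pool.Agent.H23.QCF.LocalAll

/-!
# Row TR2: the transfer is injective for quadratic extensions
-/

set_option autoImplicit false

open Polynomial Matrix Pool.Agent.H63.WT
open Pool.Agent.H32.QC (NI nsq Sol hil)

namespace Pool.Agent.H63.WTR

theorem sol_symm {F : Type} [Field F] {a b : F} (h : Sol a b) : Sol b a := by
  obtain ⟨x, y, z, h1, h2⟩ := h
  refine ⟨y, x, z, by tauto, by rw [h2]; ring⟩

theorem hil_symm {F : Type} [Field F] (a b : F) : hil a b = hil b a := by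
  unfold hil
  by_cases h : Sol a b
  · rw [if_pos h, if_pos (sol_symm h)]
  · rw [if_neg h, if_neg (fun h' => h (sol_symm h'))]

theorem hil_or {F : Type} [Field F] (a b : F) : hil a b = 1 ∨ hil a b = -1 := by
  unfold hil
  split_ifs
  · exact Or.inl rfl
  · exact Or.inr rfl

theorem not_sol {F : Type} [Field F] {a b : F} (h : hil a b = -1) : ¬ Sol a b := by
  intro h'
  rw [hil, if_pos h'] at h
  norm_num at h

/-- the choice of the slot and of the norm -/
theorem choice {F : Type} [Field F] (h2 : (2 : F) ≠ 0) (hN : NI F) (hn : 2 < nsq F) (d : F)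
    (hd : ¬ IsSquare d) : ∃ a x : F, a ≠ 0 ∧ x ^ 2 - d ≠ 0 ∧ ¬ Sol a (x ^ 2 - d) := by
  have hd0 : d ≠ 0 := by
    rintro rfl
    exact hd ⟨0, by ring⟩
  have hex : ∃ a : F, a ≠ 0 ∧ ¬ IsSquare a ∧ ¬ IsSquare (a * d) := by
    by_contra hcon
    push Not at hcon
    have h1 : nsq F = 2 := by
      unfold nsq
      rw [Subgroup.index_eq_two_iff]
      refine ⟨Units.mk0 d hd0, fun b => ?_⟩
      have hmem : ∀ u : Fˣ, u ∈ (powMonoidHom 2 : Fˣ →* Fˣ).range ↔ IsSquare (u : F) := by
        intro u
        rw [MonoidHom.mem_range]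
        constructor
        · rintro ⟨v, hv⟩
          refine ⟨(v : F), ?_⟩
          rw [← hv, powMonoidHom_apply]
          push_cast
          ring
        · rintro ⟨v, hv⟩
          have hv0 : v ≠ 0 := by
            rintro rfl
            exact u.ne_zero (by rw [hv]; ring)
          refine ⟨Units.mk0 v hv0, ?_⟩
          ext
          rw [powMonoidHom_apply]
          push_cast
          rw [Units.val_mk0, hv]
          ring
      rw [hmem, hmem]
      by_cases hb : IsSquare (b : F)
      · right
        refine ⟨hb, ?_⟩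
        rintro ⟨v, hv⟩
        obtain ⟨u, hu⟩ := hb
        apply hd
        have hu0 : u ≠ 0 := by
          rintro rfl
          exact b.ne_zero (by rw [hu]; ring)
        refine ⟨v / u, ?_⟩
        rw [Units.val_mul, Units.val_mk0, hu] at hv
        field_simp
        linear_combination hv
      · left
        refine ⟨?_, hb⟩
        rw [Units.val_mul, Units.val_mk0]
        exact hcon b b.ne_zero hb
    omega
  obtain ⟨a, ha0, ha, had⟩ := hex
  obtain ⟨z, hz0, hz1, hz2⟩ := Pool.Agent.H23.QCF.LA.ndg F h2 hN (a * d) a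
    (mul_ne_zero ha0 hd0) ha0 had ha
  have h3 := Pool.Agent.H23.QCF.LA.bim F h2 hN z a d hz0 ha0 hd0
  rw [hil_symm z (a * d), hil_symm z a, hz1, hz2] at h3
  have h4 : hil z d = 1 := by linarith
  have h5 : Sol z d := by
    by_contra hcon
    rw [hil, if_neg hcon] at h4
    norm_num at h4
  have h6 : ¬ Sol a z := not_sol hz2
  obtain ⟨p, q, r, hpq, hr⟩ := h5
  have hp : p ≠ 0 := by
    rintro rfl
    have hq : q ≠ 0 := by
      rintro rfl
      have : r = 0 := by
        have h7 : r ^ 2 = 0 := by rw [hr]; ring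
        exact pow_eq_zero_iff (two_ne_zero) |>.1 h7
      simp [this] at hpq
    apply hd
    refine ⟨r / q, ?_⟩
    field_simp
    rw [hr]
    ring
  have hq : q ≠ 0 := by
    rintro rfl
    apply h6
    refine ⟨0, p, r, Or.inr (Or.inl hp), ?_⟩
    rw [hr]
    ring
  have hN' : (r / q) ^ 2 - d = z * (p / q) ^ 2 := by
    field_simp
    rw [hr]
    ring
  refine ⟨a, r / q, ha0, ?_, ?_⟩
  · rw [hN']
    exact mul_ne_zero hz0 (pow_ne_zero 2 (div_ne_zero hp hq))
  · rw [hN']
    rintro ⟨u, v, w, huv, hw⟩
    apply h6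
    refine ⟨u, p / q * v, w, ?_, by rw [hw]; ring⟩
    rcases huv with h | h | h
    · exact Or.inl h
    · exact Or.inr (Or.inl (mul_ne_zero (div_ne_zero hp hq) h))
    · exact Or.inr (Or.inr h)

theorem pf_TR2 (hTRU : T_TRU) (hTRH : T_TRH) (hPFI : T_PFI) (hONE : T_ONE) (hCLS : T_CLS) :
    T_TR2 := by
  intro F E _ _ _ hF hd2
  have h2 : (2 : F) ≠ 0 := hF.1
  have h2E : (2 : E) ≠ 0 := by
    intro h
    apply h2
    have : algebraMap F E 2 = 0 := by rw [map_ofNat]; exact h
    exact (map_eq_zero _).mp this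
  obtain ⟨hNI, hsq⟩ := hF.2 F inferInstance
  obtain ⟨d, w, hds, hw⟩ := Pool.Agent.H15.WT.exists_sqrt F E h2 hd2
  obtain ⟨a, x, ha0, hN0, hns⟩ := choice h2 hNI hsq d hds
  have hwr : ∀ c : F, algebraMap F E c ≠ w := by
    rintro c rfl
    apply hds
    refine ⟨c, ?_⟩
    apply (algebraMap F E).injective
    rw [hw, map_mul]
    ring
  have hli : LinearIndependent F ![(1 : E), w] := by
    rw [LinearIndependent.pair_iff]
    intro s t hst
    rw [Algebra.smul_def, Algebra.smul_def, mul_one] at hst
    have ht : t = 0 := by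
      by_contra ht
      have ht' : algebraMap F E t ≠ 0 := (_root_.map_ne_zero _).mpr ht
      apply hwr (-(s / t))
      rw [map_neg, map_div₀]
      field_simp
      linear_combination -hst
    refine ⟨?_, ht⟩
    rw [ht, map_zero, zero_mul, add_zero] at hst
    exact (map_eq_zero _).mp hst
  set b : Module.Basis (Fin 2) F E := basisOfLinearIndependentOfCardEqFinrank hli
    (by rw [Fintype.card_fin, hd2]) with hb
  have hb0 : b 0 = 1 := by simp [hb]
  have hb1 : b 1 = w := by simp [hb]
  set s : E →ₗ[F] F := b.coord 1 with hs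
  have hs0 : s 1 = 0 := by
    rw [hs, ← hb0, Module.Basis.coord_apply, Module.Basis.repr_self]
    simp
  have hs1 : s w = 1 := by
    rw [hs, ← hb1, Module.Basis.coord_apply, Module.Basis.repr_self]
    simp
  have hsv : ∀ u v : F, s (algebraMap F E u + algebraMap F E v * w) = v := by
    intro u v
    have h3 : algebraMap F E u + algebraMap F E v * w = u • (1 : E) + v • w := by
      rw [Algebra.smul_def, Algebra.smul_def, mul_one]
    rw [h3, map_add, map_smul, map_smul, hs0, hs1, smul_zero, zero_add, smul_eq_mul, mul_one]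
  have hsne : s ≠ 0 := by
    intro h
    rw [h, LinearMap.zero_apply] at hs1
    exact zero_ne_one hs1
  obtain ⟨f, hf⟩ := hTRH F E h2 2 b s hsne
  obtain ⟨hc1, hc2, hc3, hc4, hc5⟩ := hCLS F h2
  obtain ⟨ho1, ho2, ho3, ho4⟩ := hONE F h2
  set β : E := algebraMap F E x + w with hβ
  have hβN : β * (algebraMap F E x - w) = algebraMap F E (x ^ 2 - d) := by
    rw [hβ, map_sub, map_pow, hw]
    ring
  have hβ0 : β ≠ 0 := by
    intro h
    rw [h, zero_mul] at hβN
    exact hN0 ((map_eq_zero _).mp hβN.symm)
  -- values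
  have val0 : ∀ c : F, c ≠ 0 → f (on (algebraMap F E c)) = 0 := by
    intro c hc
    have hcE : algebraMap F E c ≠ 0 := (_root_.map_ne_zero _).mpr hc
    obtain ⟨h3, h4⟩ := hf (Fin 1) _ (Pool.Agent.H15.WT.sn_one hcE)
    unfold on
    rw [h4]
    refine hc1 _ _ h3 ⟨1, by simp, fun _ => Pi.single (0, 0) 1, ?_, ?_⟩
    · rw [linearIndependent_unique_iff]
      intro h
      have := congrFun h (0, 0)
      simp at this
    · intro i j
      rw [mulVec_single, single_dotProduct]
      simp only [trm, col_apply, one_mul, MulOpposite.op_one, one_smul, hb0, mul_one]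
      have h5 := hsv c 0
      rw [map_zero, zero_mul, add_zero] at h5
      exact h5
  have val1 : ∀ c : F, c ≠ 0 → f (on (algebraMap F E c * β)) =
      on c - on (c * (x ^ 2 - d)) := by
    intro c hc
    have hcE : algebraMap F E c ≠ 0 := (_root_.map_ne_zero _).mpr hc
    obtain ⟨h3, h4⟩ := hf (Fin 1) _ (Pool.Agent.H15.WT.sn_one (mul_ne_zero hcE hβ0))
    have e1 : f (on (algebraMap F E c * β)) =
        cls (trm s b (fun _ _ : Fin 1 => algebraMap F E c * β)) := by
      unfold on
      exact h4
    have k0 : s (algebraMap F E c * β * (b 0 * b 0)) = c := by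
      have h5 := hsv (c * x) c
      have h6 : algebraMap F E c * β * (b 0 * b 0) =
          algebraMap F E (c * x) + algebraMap F E c * w := by
        rw [hb0, hβ, map_mul]
        ring
      rw [h6, h5]
    have k1 : s (algebraMap F E c * β * (b 0 * b 1)) = c * x := by
      have h5 := hsv (c * d) (c * x)
      have h6 : algebraMap F E c * β * (b 0 * b 1) =
          algebraMap F E (c * d) + algebraMap F E (c * x) * w := by
        rw [hb0, hb1, hβ, map_mul, map_mul, hw]
        ring
      rw [h6, h5]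
    have k2 : s (algebraMap F E c * β * (b 1 * b 1)) = c * d := by
      have h5 := hsv (c * d * x) (c * d)
      have h6 : algebraMap F E c * β * (b 1 * b 1) =
          algebraMap F E (c * d * x) + algebraMap F E (c * d) * w := by
        rw [hb1, hβ, map_mul, map_mul, hw]
        ring
      rw [h6, h5]
    set U : Matrix (Fin 1 × Fin 2) (Fin 2) F := fun i j => !![1, -x; 0, 1] i.2 j with hU
    set V : Matrix (Fin 2) (Fin 1 × Fin 2) F := fun i j => !![1, x; 0, 1] i j.2 with hV
    have hUV : U * V = 1 := by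
      ext ⟨i, i'⟩ ⟨j, j'⟩
      fin_cases i; fin_cases j
      fin_cases i' <;> fin_cases j' <;>
        simp [Matrix.mul_apply, Fin.sum_univ_two, hU, hV, Matrix.one_apply]
    have hVU : V * U = 1 := by
      ext i j
      fin_cases i <;> fin_cases j <;>
        simp [Matrix.mul_apply, Fintype.sum_prod_type, Fin.sum_univ_two, hU, hV]
    obtain ⟨-, h7⟩ := hc3 _ _ _ U V h3 hUV hVU
    have h8 : Uᵀ * trm s b (fun _ _ : Fin 1 => algebraMap F E c * β) * U =
        Matrix.diagonal ![c, -(c * (x ^ 2 - d))] := by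
      ext i j
      have k1' : s (algebraMap F E c * β * (b 1 * b 0)) = c * x := by
        rw [mul_comm (b 1) (b 0)]
        exact k1
      fin_cases i <;> fin_cases j <;>
        simp [Matrix.mul_apply, Fintype.sum_prod_type, Fin.sum_univ_two, hU, trm, k0, k1, k1',
          k2] <;> ring
    rw [e1, ← h7, h8, ho3 _ _ (by
      intro i
      fin_cases i
      · exact hc
      · exact neg_ne_zero.2 (mul_ne_zero hc hN0)), Fin.sum_univ_two]
    simp only [cons_val_zero, cons_val_one]
    rw [ho2 _ (mul_ne_zero hc hN0)]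
    abel
  have haE : algebraMap F E a ≠ 0 := (_root_.map_ne_zero _).mpr ha0
  refine hTRU F E hF ⟨2, b, s, f, pf (algebraMap F E a) β, hsne, hf,
    (hPFI E h2E _ _ haE hβ0).1, ?_⟩
  have h9 : f (pf (algebraMap F E a) β) = -pf a (x ^ 2 - d) := by
    have v1 := val0 1 one_ne_zero
    have v2 := val1 1 one_ne_zero
    rw [map_one] at v1
    rw [map_one, one_mul, one_mul] at v2
    unfold pf
    rw [map_add, map_sub, map_sub, v1, val0 a ha0, v2, val1 a ha0]
    abel
  rw [h9]
  intro h10
  exact hns ((hPFI F h2 _ _ ha0 hN0).2.1 (neg_eq_zero.1 h10))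

end Pool.Agent.H63.WTR
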